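import Pool.Agent.Q181.Aval.Wedge

/-! MP_fb4947_gt, Q1: every wedge of spheres, and in fact every nonempty finite simplicial
complex, is homotopy equivalent to the avalanche complex of a weakly connected digraph with some
starting configuration. -/

set_option autoImplicit false

namespace Pool.Agent.Results.MP_fb4947_gt.AllWedgesOccur

open Q181.Aval

theorem result :
    (∀ (m : ℕ) (d : Fin m → ℕ),
      ∃ (V : Type) (_ : Fintype V) (G : Digraph V) (c₀ : V → ℕ), LooplessConnected G ∧
        Nonempty (ContinuousMap.HomotopyEquiv (Realization (avalanche G c₀)) (Wedge d))) ∧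
    (∀ (W : Type) [Fintype W] (K : Set (Finset W)), K.Nonempty → (∀ s ∈ K, s.Nonempty) →
      (∀ s ∈ K, ∀ s' : Finset W, s' ⊆ s → s'.Nonempty → s' ∈ K) →
      ∃ (V : Type) (_ : Fintype V) (G : Digraph V) (c₀ : V → ℕ), LooplessConnected G ∧
        Nonempty (ContinuousMap.HomotopyEquiv (Realization (avalanche G c₀)) (Realization K))) :=
  ⟨fun _ d => main_wedge d, fun _ _ K h1 h2 h3 => main_complex K h2 h3 h1⟩

end Pool.Agent.Results.MP_fb4947_gt.AllWedgesOccur
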